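import Pool.Agent.Helper187.CC.Stmts

set_option autoImplicit false

/-! Task SC of H187-CYCLE (helper526 for helper187). -/

namespace H187CC

variable {A : Type}

theorem sc_improper (t : ℝ) (c : A) : ∀ (w p : List A) (a : A), ¬ Proper (p ++ a :: w) →
    vspl (fun u a v => ind (a = c) *
      (phi t (p ++ u ++ [a]) * phi t v - phi t (p ++ u) * phi t (a :: v))) (a :: w) =
      - (ind (a = c) * (phi t p * phi t (a :: w))) := by
  intro w
  induction w with
  | nil =>
    intro p a h
    rw [vspl_cons, vspl_nil, phi_nil, List.append_nil, phi_improper t (p ++ [a]) h]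
    ring
  | cons b w ih =>
    intro p a h
    rw [vspl_cons]
    have h' : ¬ Proper ((p ++ [a]) ++ b :: w) := by
      rwa [List.append_assoc, List.singleton_append]
    have h1 := ih (p ++ [a]) b h'
    have e : vspl (fun u d v => ind (d = c) *
        (phi t (p ++ (a :: u) ++ [d]) * phi t v - phi t (p ++ (a :: u)) * phi t (d :: v)))
          (b :: w) = - (ind (b = c) * (phi t (p ++ [a]) * phi t (b :: w))) := by
      rw [← h1]
      apply vspl_congr
      intro u d v _
      simp only [List.append_assoc, List.singleton_append, List.cons_append, List.nil_append]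
    rw [e, List.append_nil]
    have h2 : (ind (a = c) - ind (b = c)) * (phi t (p ++ [a]) * phi t (b :: w)) = 0 := by
      by_cases hab : a = b
      · subst hab; rw [sub_self, zero_mul]
      · by_cases hp : Proper (p ++ [a])
        · by_cases hw : Proper (b :: w)
          · have hab' : Proper (a :: b :: w) := ⟨hab, hw⟩
            exact absurd (Proper_glue hp hab') h
          · rw [phi_improper t _ hw]; ring
        · rw [phi_improper t _ hp]; ring
    linear_combination h2

theorem sc_proper (t : ℝ) (h0 : 0 < t) (h1 : t < 1) (c : A) (w : List A) (hw : Proper w) :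
    del t (fun w' => vspl (fun u a v => ind (a = c) *
      (phi t (u ++ [a]) * phi t v - phi t u * phi t (a :: v))) w') w =
    (1 - t ^ w.length) * vspl (fun u a v => ind (a = c) *
      (phi t (u ++ [a]) * phi t v - phi t u * phi t (a :: v))) w := by
  rw [del_vspl, ← vspl_mul]
  apply vspl_congr
  intro u a v hsplit
  have hu : Proper u := by
    rw [hsplit] at hw
    exact Proper_append_left hw
  have hav : Proper (a :: v) := by
    rw [hsplit] at hw
    exact Proper_append_right hw
  have hv : Proper v := Proper_tail hav
  have hua : Proper (u ++ [a]) := by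
    rw [hsplit, show u ++ a :: v = (u ++ [a]) ++ v by simp] at hw
    exact Proper_append_left hw
  have r1 := phi_rec t h0 h1 u hu
  have r2 := phi_rec t h0 h1 v hv
  have r3 := phi_rec t h0 h1 (a :: v) hav
  have r4 := phi_rec t h0 h1 (u ++ [a]) hua
  rw [del_cons] at r3
  rw [del_append, del_cons, del_nil] at r4
  simp only [List.length_append, List.length_cons, List.length_nil, List.append_nil, zero_add,
    pow_one, pow_zero, one_mul, add_zero] at r3 r4
  have hlen : w.length = u.length + (v.length + 1) := by
    rw [hsplit]; simp
  have d1 : del t (fun u' => ind (a = c) *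
      (phi t (u' ++ [a]) * phi t v - phi t u' * phi t (a :: v))) u =
      ind (a = c) * (phi t v * del t (fun u' => phi t (u' ++ [a])) u
        - phi t (a :: v) * del t (phi t) u) := by
    have : (fun u' => ind (a = c) *
        (phi t (u' ++ [a]) * phi t v - phi t u' * phi t (a :: v))) =
        fun u' => (ind (a = c) * phi t v) * phi t (u' ++ [a]) +
          (-(ind (a = c) * phi t (a :: v))) * phi t u' := by
      funext u'; ring
    rw [this, del_add, del_mul, del_mul]
    ring
  have d2 : del t (fun v' => ind (a = c) *
      (phi t (u ++ [a]) * phi t v' - phi t u * phi t (a :: v'))) v =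
      ind (a = c) * (phi t (u ++ [a]) * del t (phi t) v
        - phi t u * del t (fun v' => phi t (a :: v')) v) := by
    have : (fun v' => ind (a = c) *
        (phi t (u ++ [a]) * phi t v' - phi t u * phi t (a :: v'))) =
        fun v' => (ind (a = c) * phi t (u ++ [a])) * phi t v' +
          (-(ind (a = c) * phi t u)) * phi t (a :: v') := by
      funext v'; ring
    rw [this, del_add, del_mul, del_mul]
    ring
  rw [d1, d2, ← r1, ← r2, hlen]
  have e1 : t ^ (v.length + 1) = t ^ v.length * t := pow_succ _ _
  have e2 : t ^ (u.length + (v.length + 1)) = t ^ v.length * t ^ (u.length + 1) := by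
    rw [← pow_add]; congr 1; omega
  have e3 : t ^ (u.length + 1) = t ^ u.length * t := pow_succ _ _
  have r4' : t * del t (fun u' => phi t (u' ++ [a])) u =
      (1 - t ^ (u.length + 1)) * phi t (u ++ [a]) - phi t u := by
    linear_combination (-1 : ℝ) * r4
  have r3' : del t (fun v' => phi t (a :: v')) v =
      (1 - t ^ (v.length + 1)) * phi t (a :: v) - t ^ v.length * phi t v := by
    linear_combination (-1 : ℝ) * r3
  rw [r3', e2]
  rw [e3] at r4' ⊢
  rw [e1]
  linear_combination (ind (a = c) * phi t v * t ^ v.length) * r4'

theorem taskSC : TaskSC := by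
  intro A t h0 h1 c w
  induction h : w.length using Nat.strong_induction_on generalizing w with
  | _ n ih =>
    cases w with
    | nil => rfl
    | cons a w =>
      by_cases hp : Proper (a :: w)
      · have h2 := sc_proper t h0 h1 c (a :: w) hp
        have h3 : del t (fun w' => vspl (fun u a v => ind (a = c) *
            (phi t (u ++ [a]) * phi t v - phi t u * phi t (a :: v))) w') (a :: w) = 0 := by
          rw [← del_zero t (a :: w)]
          apply del_congr
          intro v hv
          exact ih v.length (by omega) v rfl
        rw [h3] at h2
        exact (mul_eq_zero.1 h2.symm).resolve_left (pow_ne t h0 h1 _ (by simp))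
      · have h2 := sc_improper t c w [] a (by simpa using hp)
        simp only [List.nil_append] at h2
        rw [h2, phi_improper t _ hp]
        ring

end H187CC
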